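import Mathlib

namespace Pool.Agent.Work.MP_a5055e_co

/-- `G` contains no subgraph isomorphic to a member of the family `F`. -/
def FamFree (F : Set (Σ m : ℕ, SimpleGraph (Fin m))) {n : ℕ} (G : SimpleGraph (Fin n)) : Prop :=
  ∀ H ∈ F, H.2.Free G

/-- `ex(n, F)`: the maximum number of edges of an `n`-vertex `F`-free graph. -/
noncomputable def ex (F : Set (Σ m : ℕ, SimpleGraph (Fin m))) (n : ℕ) : ℕ :=
  sSup {e | ∃ G : SimpleGraph (Fin n), FamFree F G ∧ e = G.edgeSet.ncard}

/-- `ex(n, P_t, F)`: the maximum number of copies of the path on `t` vertices in an `n`-vertex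
`F`-free graph. -/
noncomputable def exP (t : ℕ) (F : Set (Σ m : ℕ, SimpleGraph (Fin m))) (n : ℕ) : ℕ :=
  sSup {c | ∃ G : SimpleGraph (Fin n), FamFree F G ∧ c = G.copyCount (SimpleGraph.pathGraph t)}

end Pool.Agent.Work.MP_a5055e_co
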