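import Mathlib

/-! Label sequences of paths in the template. -/

namespace Pool.Agent.Work.MP_a5055e_co

/-- The labels whose class is large. -/
def big (l : ℕ) : Bool := Nat.testBit 11370933 l

def inc (b b0 b1 b2 : Bool) : Bool := b && (!b0 || (b1 && !b2))

/-- Charged positions of a pattern: last position of a run, and the third from the end. -/
def chg (β : ℕ → Bool) (i : ℕ) : Bool := inc (β i) (β (i + 1)) (β (i + 2)) (β (i + 3))

def ok (h m x : ℕ) : Bool := Nat.ble x 23 && !(Nat.beq x h) && (big x || !(Nat.testBit m x))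

def chk : ℕ → ℕ → ℕ → Bool → Bool → ℕ → Bool
  | 0, _, _, _, _, c => Nat.ble c 8
  | n + 1, h, m, b1, b2, c =>
      (bif ok h m (h + 1) then chk n (h + 1) (m ||| 2 ^ (h + 1)) (big h) b1
        (c + (inc (big (h + 1)) (big h) b1 b2).toNat) else true) &&
      (bif ok h m (h - 1) then chk n (h - 1) (m ||| 2 ^ (h - 1)) (big h) b1
        (c + (inc (big (h - 1)) (big h) b1 b2).toNat) else true)

theorem chk_all : ∀ h < 24, chk 23 h (2 ^ h) false false (big h).toNat = true := by
  decide +kernel

lemma chk_sound (τ : ℕ → ℕ) (β : ℕ → Bool) (hβ : ∀ i ≤ 23, β i = big (τ i))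
    (h1 : ∀ i ≤ 23, τ i < 24)
    (h2 : ∀ i < 23, τ i + 1 = τ (i + 1) ∨ τ (i + 1) + 1 = τ i)
    (h3 : ∀ i ≤ 23, ∀ j ≤ 23, τ i = τ j → big (τ i) = false → i = j) :
    ∀ j ≤ 23, ∀ m c, (∀ x, Nat.testBit m x = true → ∃ i, j ≤ i ∧ i ≤ 23 ∧ τ i = x) →
      chk j (τ j) m (β (j + 1)) (β (j + 2)) c = true →
      ((Finset.range j).filter fun i => chg β i = true).card + c ≤ 8 := by
  intro j
  induction j with
  | zero =>
    intro _ m c _ h
    simpa [chk] using h
  | succ j ih =>
    intro hj m c hm h
    have hok : ok (τ (j + 1)) m (τ j) = true := by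
      have a1 := h1 j (by omega)
      have a2 := h2 j (by omega)
      simp only [ok, Bool.and_eq_true, Nat.ble_eq, Bool.not_eq_true', Bool.or_eq_true]
      refine ⟨⟨by omega, ?_⟩, ?_⟩
      · rw [← Bool.not_eq_true, Nat.beq_eq]; omega
      · by_cases hb : big (τ j) = true
        · exact Or.inl hb
        · right
          rw [← Bool.not_eq_true]
          intro ht
          obtain ⟨i, hi1, hi2, hi3⟩ := hm _ ht
          have := h3 j (by omega) i hi2 hi3.symm (by simpa using hb)
          omega
    have hch : chk j (τ j) (m ||| 2 ^ τ j) (big (τ (j + 1))) (β (j + 1 + 1))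
        (c + (inc (big (τ j)) (big (τ (j + 1))) (β (j + 1 + 1)) (β (j + 1 + 2))).toNat) = true := by
      simp only [chk, Bool.and_eq_true] at h
      rcases h2 j (by omega) with a | a
      · have e : τ (j + 1) - 1 = τ j := by omega
        have := h.2
        rw [e, hok] at this
        exact this
      · have := h.1
        rw [a, hok] at this
        exact this
    rw [← hβ (j + 1) hj, ← hβ j (by omega)] at hch
    have := ih (by omega) _ _ (fun x hx => ?_) hch
    · rw [Finset.range_add_one, Finset.filter_insert]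
      by_cases hc : chg β j = true
      · rw [if_pos hc, Finset.card_insert_of_notMem (by simp)]
        have hc' : inc (β j) (β (j + 1)) (β (j + 1 + 1)) (β (j + 1 + 2)) = true := hc
        rw [hc'] at this
        simp only [Bool.toNat_true] at this
        omega
      · rw [if_neg hc]; omega
    · rw [Nat.testBit_or, Bool.or_eq_true] at hx
      rcases hx with hx | hx
      · obtain ⟨i, hi1, hi2, hi3⟩ := hm _ hx
        exact ⟨i, by omega, hi2, hi3⟩
      · rw [Nat.testBit_two_pow, decide_eq_true_eq] at hx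
        exact ⟨j, le_rfl, by omega, hx⟩

theorem charged_le (τ : ℕ → ℕ) (β : ℕ → Bool) (hβ : ∀ i ≤ 23, β i = big (τ i))
    (hβ' : ∀ i, 24 ≤ i → β i = false) (h1 : ∀ i ≤ 23, τ i < 24)
    (h2 : ∀ i < 23, τ i + 1 = τ (i + 1) ∨ τ (i + 1) + 1 = τ i)
    (h3 : ∀ i ≤ 23, ∀ j ≤ 23, τ i = τ j → big (τ i) = false → i = j) :
    ((Finset.range 24).filter fun i => chg β i = true).card ≤ 8 := by
  have h := chk_sound τ β hβ h1 h2 h3 23 le_rfl (2 ^ τ 23) (big (τ 23)).toNat
    (fun x hx => by
      rw [Nat.testBit_two_pow, decide_eq_true_eq] at hx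
      exact ⟨23, le_rfl, le_rfl, hx⟩)
    (by rw [hβ' _ (by norm_num), hβ' _ (by norm_num)]; exact chk_all _ (h1 23 le_rfl))
  rw [show (24 : ℕ) = 23 + 1 from rfl, Finset.range_add_one, Finset.filter_insert]
  by_cases hc : chg β 23 = true
  · rw [if_pos hc, Finset.card_insert_of_notMem (by simp)]
    have : big (τ 23) = true := by
      rw [← hβ 23 le_rfl]
      simp only [chg, inc, Bool.and_eq_true] at hc
      exact hc.1
    rw [this] at h
    simpa using h
  · rw [if_neg hc]; omega

end Pool.Agent.Work.MP_a5055e_co
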