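import Mathlib
import Pool.Agent.Work.MP_a5055e_co.Labels
import Pool.Agent.Work.MP_a5055e_co.Defs

-- merged part: Pool.Agent.Work.MP_a5055e_co.Greedy
section
/-! Graphs of bounded degree and large girth by a maximality argument. -/

namespace Pool.Agent.Work.MP_a5055e_co

open SimpleGraph Finset

variable {V : Type*}

/-- All cycles are longer than `g`. -/
def Girth (H : SimpleGraph V) (g : ℕ) : Prop :=
  ∀ v (c : H.Walk v v), c.IsCycle → g < c.length

lemma trail_split (H : SimpleGraph V) (x y : V) :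
    ∀ {u v : V} (p : (H ⊔ edge x y).Walk u v), p.IsTrail →
      (s(x, y) ∉ p.edges) ∨
      (∃ (a : H.Walk u x) (b : H.Walk y v), a.length + b.length + 1 = p.length) ∨
      (∃ (a : H.Walk u y) (b : H.Walk x v), a.length + b.length + 1 = p.length) := by
  intro u v p
  induction p with
  | nil => intro _; left; simp
  | @cons u w v h p ih =>
    intro hp
    rw [Walk.isTrail_cons] at hp
    by_cases he : s(u, w) = s(x, y)
    · have hnot : s(x, y) ∉ p.edges := he ▸ hp.2
      have htr : ∀ e ∈ p.edges, e ∈ H.edgeSet := by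
        intro e hep
        have h1 := p.edges_subset_edgeSet hep
        rw [edgeSet_sup, edge, edgeSet_fromEdgeSet] at h1
        rcases h1 with h1 | h1
        · exact h1
        · exact absurd (by rw [← h1.1]; exact hep) hnot
      right
      rcases Sym2.eq_iff.1 he with ⟨rfl, rfl⟩ | ⟨rfl, rfl⟩
      · left; exact ⟨Walk.nil, p.transfer H htr, by simp⟩
      · right; exact ⟨Walk.nil, p.transfer H htr, by simp⟩
    · have hH : H.Adj u w := by
        rcases h with h | h
        · exact h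
        · exact absurd ((adj_edge _ _).1 h).1.symm he
      rcases ih hp.1 with h1 | ⟨a, b, hab⟩ | ⟨a, b, hab⟩
      · left
        simp only [Walk.edges_cons, List.mem_cons, not_or]
        exact ⟨fun h2 => he h2.symm, h1⟩
      · right; left; exact ⟨Walk.cons hH a, b, by simp; omega⟩
      · right; right; exact ⟨Walk.cons hH a, b, by simp; omega⟩

lemma girth_sup (H : SimpleGraph V) (g : ℕ) (hH : Girth H g) (x y : V)
    (hxy : ∀ w : H.Walk x y, g < w.length) : Girth (H ⊔ edge x y) g := by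
  intro v c hc
  rcases trail_split H x y c hc.isTrail with h1 | ⟨a, b, hab⟩ | ⟨a, b, hab⟩
  · have htr : ∀ e ∈ c.edges, e ∈ H.edgeSet := by
      intro e hep
      have h2 := c.edges_subset_edgeSet hep
      rw [edgeSet_sup, edge, edgeSet_fromEdgeSet] at h2
      rcases h2 with h2 | h2
      · exact h2
      · exact absurd (by rw [← h2.1]; exact hep) h1
    have := hH v (c.transfer H htr) (hc.transfer htr)
    simpa using this
  · have := hxy (b.append a).reverse
    simp at this; omega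
  · have := hxy (b.append a)
    simp at this; omega

lemma deg_sup [Finite V] (H : SimpleGraph V) (x y v : V) (D : ℕ)
    (hD : ∀ v, (H.neighborSet v).ncard ≤ D) (hx : (H.neighborSet x).ncard < D)
    (hy : (H.neighborSet y).ncard < D) : ((H ⊔ edge x y).neighborSet v).ncard ≤ D := by
  by_cases h1 : v = x
  · subst h1
    have : (H ⊔ edge v y).neighborSet v ⊆ insert y (H.neighborSet v) := by
      intro w hw
      rcases hw with hw | hw
      · exact Or.inr hw
      · rw [edge_adj] at hw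
        rcases hw with ⟨⟨_, h⟩ | ⟨h, h'⟩, hne⟩
        · exact Or.inl h
        · exact absurd h'.symm hne
    exact (Set.ncard_le_ncard this).trans ((Set.ncard_insert_le _ _).trans hx)
  by_cases h2 : v = y
  · subst h2
    have : (H ⊔ edge x v).neighborSet v ⊆ insert x (H.neighborSet v) := by
      intro w hw
      rcases hw with hw | hw
      · exact Or.inr hw
      · rw [edge_adj] at hw
        rcases hw with ⟨⟨h, _⟩ | ⟨h, h'⟩, hne⟩
        · exact absurd h h1
        · exact Or.inl h'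
    exact (Set.ncard_le_ncard this).trans ((Set.ncard_insert_le _ _).trans hy)
  have : (H ⊔ edge x y).neighborSet v ⊆ H.neighborSet v := by
    intro w hw
    rcases hw with hw | hw
    · exact hw
    · rw [edge_adj] at hw
      rcases hw with ⟨⟨h, _⟩ | ⟨h, _⟩, _⟩
      · exact absurd h h1
      · exact absurd h h2
  exact (Set.ncard_le_ncard this).trans (hD v)

theorem exists_greedy [Finite V] (K : SimpleGraph V) (D g : ℕ) (hg : 1 ≤ g) :
    ∃ H : SimpleGraph V, H ≤ K ∧ (∀ v, (H.neighborSet v).ncard ≤ D) ∧ Girth H g ∧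
      ∀ x y, K.Adj x y → (H.neighborSet x).ncard = D ∨ (H.neighborSet y).ncard = D ∨
        ∃ w : H.Walk x y, w.length ≤ g := by
  classical
  let P : SimpleGraph V → Prop := fun H =>
    H ≤ K ∧ (∀ v, (H.neighborSet v).ncard ≤ D) ∧ Girth H g
  have h0 : P ⊥ := by
    refine ⟨bot_le, fun v => by simp, fun v c hc => ?_⟩
    exact absurd hc (isAcyclic_bot c)
  obtain ⟨H, -, hH⟩ := Finite.exists_le_maximal (p := P) h0
  obtain ⟨h1, h2, h3⟩ := hH.prop
  refine ⟨H, h1, h2, h3, fun x y hxy => ?_⟩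
  by_contra hcon
  push Not at hcon
  obtain ⟨hx, hy, hw⟩ := hcon
  have hP : P (H ⊔ edge x y) := by
    refine ⟨sup_le h1 ?_, fun v => deg_sup H x y v D h2 (lt_of_le_of_ne (h2 x) hx)
      (lt_of_le_of_ne (h2 y) hy), girth_sup H g h3 x y hw⟩
    exact (edge_le_iff K).2 (Or.inr hxy)
  have hle := hH.le_of_ge hP le_sup_left
  have hadj : H.Adj x y := hle (Or.inr (by rw [edge_adj]; exact ⟨Or.inl ⟨rfl, rfl⟩, hxy.ne⟩))
  have := hw (Walk.cons hadj Walk.nil)
  simp at this; omega

lemma ball_le [Finite V] (H : SimpleGraph V) (D : ℕ) (hD : ∀ v, (H.neighborSet v).ncard ≤ D)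
    (x : V) (g : ℕ) : {y | ∃ w : H.Walk x y, w.length ≤ g}.ncard ≤ (D + 1) ^ g := by
  classical
  induction g with
  | zero =>
    have : {y | ∃ w : H.Walk x y, w.length ≤ 0} ⊆ {x} := by
      rintro y ⟨w, hw⟩
      exact (w.eq_of_length_eq_zero (by omega)).symm
    exact (Set.ncard_le_ncard this).trans (by simp)
  | succ g ih =>
    have := Fintype.ofFinite V
    set B := {y | ∃ w : H.Walk x y, w.length ≤ g} with hB
    have hsub : {y | ∃ w : H.Walk x y, w.length ≤ g + 1} ⊆
        ↑(B.toFinset.biUnion fun z => (insert z (H.neighborSet z)).toFinset) := by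
      rintro y ⟨w, hw⟩
      simp only [coe_biUnion, Set.coe_toFinset, Set.mem_iUnion]
      by_cases h : w.length ≤ g
      · exact ⟨y, ⟨w, h⟩, Or.inl rfl⟩
      · have hn : ¬ w.Nil := by rw [← Walk.length_eq_zero_iff]; omega
        refine ⟨w.penultimate, ⟨w.dropLast, ?_⟩, Or.inr (w.adj_penultimate hn)⟩
        have := Walk.length_dropLast w
        omega
    refine (Set.ncard_le_ncard hsub).trans ?_
    rw [Set.ncard_coe_finset]
    refine card_biUnion_le.trans ?_
    refine (sum_le_card_nsmul _ _ (D + 1) ?_).trans ?_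
    · intro z _
      rw [← Set.ncard_eq_toFinset_card']
      exact (Set.ncard_insert_le _ _).trans (by have := hD z; omega)
    · rw [← Set.ncard_eq_toFinset_card', smul_eq_mul, pow_succ]
      exact Nat.mul_le_mul_right _ ih

lemma exists_walk (H : SimpleGraph V) (p : ℕ → V) :
    ∀ m, (∀ i < m, H.Adj (p i) (p (i + 1))) →
      ∃ w : H.Walk (p 0) (p m), w.support = (List.range (m + 1)).map p := by
  intro m
  induction m with
  | zero => intro _; exact ⟨Walk.nil, by simp⟩
  | succ m ih =>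
    intro h
    obtain ⟨w, hw⟩ := ih fun i hi => h i (by omega)
    refine ⟨w.concat (h m (by omega)), ?_⟩
    rw [Walk.support_concat, hw, List.range_succ (n := m + 1)]
    simp

/-- Short paths are determined by their end points. -/
lemma path_unique (H : SimpleGraph V) (g : ℕ) (hH : Girth H g) (p q : ℕ → V) (m : ℕ)
    (hm : 2 * m ≤ g) (hp : ∀ i < m, H.Adj (p i) (p (i + 1)))
    (hq : ∀ i < m, H.Adj (q i) (q (i + 1)))
    (hpi : ∀ i ≤ m, ∀ j ≤ m, p i = p j → i = j) (hqi : ∀ i ≤ m, ∀ j ≤ m, q i = q j → i = j)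
    (h0 : p 0 = q 0) (h1 : p m = q m) : ∀ i ≤ m, p i = q i := by
  obtain ⟨w, hw⟩ := exists_walk H p m hp
  obtain ⟨w', hw'⟩ := exists_walk H q m hq
  have hnd : ∀ r : ℕ → V, (∀ i ≤ m, ∀ j ≤ m, r i = r j → i = j) →
      ((List.range (m + 1)).map r).Nodup := by
    intro r hr
    refine List.Nodup.map_on ?_ List.nodup_range
    intro i hi j hj hij
    exact hr i (by simp at hi; omega) j (by simp at hj; omega) hij
  have hwp : w.IsPath := by rw [Walk.isPath_def, hw]; exact hnd p hpi
  have hwq : (w'.copy h0.symm h1.symm).IsPath := by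
    rw [Walk.isPath_def, Walk.support_copy, hw']; exact hnd q hqi
  have hl : w.length = m := by
    have := w.length_support; rw [hw] at this; simpa using this.symm
  have hl' : w'.length = m := by
    have := w'.length_support; rw [hw'] at this; simpa using this.symm
  have heq : w = w'.copy h0.symm h1.symm := by
    by_contra hne
    obtain ⟨z, -, -, c, hc, hcl⟩ := hwp.exists_isCycle_length_le_add_of_ne hwq hne
    have := hH z c hc
    simp only [Walk.length_copy] at hcl
    omega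
  have hs : (List.range (m + 1)).map p = (List.range (m + 1)).map q := by
    rw [← hw, ← hw', heq, Walk.support_copy]
  intro i hi
  exact List.map_inj_left.1 hs i (by simp; omega)

lemma Girth.comap {W : Type*} {H : SimpleGraph V} {g : ℕ} (hH : Girth H g) (f : W → V)
    (hf : Function.Injective f) : Girth (H.comap f) g := by
  intro v c hc
  have := hH _ (c.map (Hom.comap f H)) (hc.map hf)
  simpa using this

/-- A graph on at most `g` vertices and of girth more than `g` has at most `2 n` darts. -/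
lemma darts_le_of_girth {n g : ℕ} (H : SimpleGraph (Fin n)) [DecidableRel H.Adj]
    (hH : Girth H g) (hn : n ≤ g) :
    #(univ.filter fun p : Fin n × Fin n => H.Adj p.1 p.2) ≤ 2 * n := by
  classical
  rcases Nat.eq_zero_or_pos n with rfl | hpos
  · simp
  have : Nonempty (Fin n) := ⟨⟨0, hpos⟩⟩
  have hac : H.IsAcyclic := by
    intro v c hc
    have h1 := hH v c hc
    have h2 := hc.isPath_tail.length_lt
    have h3 := Walk.length_tail_add_one hc.not_nil
    simp only [Fintype.card_fin] at h2; omega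
  obtain ⟨F, hF, -, hT⟩ := (connected_top (V := Fin n)).exists_isTree_le_of_le_of_isAcyclic
    le_top hac
  have h1 := hT.card_edgeFinset
  have h2 := H.two_mul_card_edgeFinset
  have h3 : #H.edgeFinset ≤ #F.edgeFinset := card_le_card (edgeFinset_mono hF)
  simp only [Fintype.card_fin] at h1
  have h4 : #(univ.filter fun p : Fin n × Fin n => H.Adj p.1 p.2) = 2 * #H.edgeFinset := by
    rw [h2]
  omega

end Pool.Agent.Work.MP_a5055e_co
end

-- merged part: Pool.Agent.Work.MP_a5055e_co.Upper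
section
/-! The template graph and upper bounds for its subgraphs. -/

namespace Pool.Agent.Work.MP_a5055e_co

open SimpleGraph Finset

abbrev Vx (N : ℕ) := Fin 24 × Fin N

variable {N : ℕ}

def Kg (N : ℕ) : SimpleGraph (Vx N) where
  Adj u v := (u.1.val + 1 = v.1.val ∨ v.1.val + 1 = u.1.val) ∧ big u.1 = true ∧ big v.1 = true
  symm := ⟨fun _ _ h => ⟨h.1.symm, h.2.2, h.2.1⟩⟩
  loopless := ⟨fun _ h => by have := h.1; omega⟩

def act (u : Vx N) : Prop := big u.1 = true ∨ u.2.val = 0

def Tg (H : SimpleGraph (Vx N)) : SimpleGraph (Vx N) where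
  Adj u v := H.Adj u v ∨ ((u.1.val + 1 = v.1.val ∨ v.1.val + 1 = u.1.val) ∧ act u ∧ act v ∧
    (big u.1 = false ∨ big v.1 = false))
  symm := ⟨fun _ _ h => h.imp (fun h => h.symm) fun h => ⟨h.1.symm, h.2.2.1, h.2.1, h.2.2.2.symm⟩⟩
  loopless := ⟨fun u h => by
    rcases h with h | h
    · exact H.irrefl h
    · have := h.1; omega⟩

lemma Tg_label {H : SimpleGraph (Vx N)} (hK : H ≤ Kg N) {u v : Vx N} (h : (Tg H).Adj u v) :
    u.1.val + 1 = v.1.val ∨ v.1.val + 1 = u.1.val := by
  rcases h with h | h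
  · exact (hK h).1
  · exact h.1

lemma Tg_hub {H : SimpleGraph (Vx N)} (hK : H ≤ Kg N) {u v : Vx N} (h : (Tg H).Adj u v)
    (hu : big u.1 = false) : u.2.val = 0 := by
  rcases h with h | h
  · have := (hK h).2.1; simp [hu] at this
  · rcases h.2.1 with h' | h'
    · simp [hu] at h'
    · exact h'

lemma Tg_big {H : SimpleGraph (Vx N)} {u v : Vx N} (h : (Tg H).Adj u v)
    (hu : big u.1 = true) (hv : big v.1 = true) : H.Adj u v := by
  rcases h with h | h
  · exact h
  · rcases h.2.2.2 with h' | h'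
    · simp [hu] at h'
    · simp [hv] at h'

open Classical in
/-- Ordered pairs mapped to edges of the dense part. -/
noncomputable def Dr {n : ℕ} (H : SimpleGraph (Vx N)) (φ : Fin n → Vx N) :
    Finset (Fin n × Fin n) :=
  univ.filter fun p => H.Adj (φ p.1) (φ p.2)

lemma mem_Dr {n : ℕ} {H : SimpleGraph (Vx N)} {φ : Fin n → Vx N} {p : Fin n × Fin n} :
    p ∈ Dr H φ ↔ H.Adj (φ p.1) (φ p.2) := by simp [Dr]

lemma Dr_le_deg {n D : ℕ} (H : SimpleGraph (Vx N)) (φ : Fin n → Vx N)
    (hφ : Function.Injective φ) (hD : ∀ v, (H.neighborSet v).ncard ≤ D) :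
    #(Dr H φ) ≤ n * D := by
  classical
  have h := card_le_mul_card_image (f := Prod.fst) (Dr H φ) D (by
    intro u _
    refine le_trans ?_ (hD (φ u))
    rw [← Set.ncard_coe_finset]
    refine Set.ncard_le_ncard_of_injOn (fun p => φ p.2) ?_ ?_
    · intro p hp
      simp only [coe_filter, Set.mem_ofPred_eq, mem_Dr] at hp
      rw [← hp.2]; exact hp.1
    · intro p hp q hq hpq
      simp only [coe_filter, Set.mem_ofPred_eq] at hp hq
      exact Prod.ext (hp.2.trans hq.2.symm) (hφ hpq))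
  have h2 : #((Dr H φ).image Prod.fst) ≤ n := by simpa using card_le_univ ((Dr H φ).image Prod.fst)
  calc #(Dr H φ) ≤ D * #((Dr H φ).image Prod.fst) := h
    _ ≤ D * n := Nat.mul_le_mul_left _ h2
    _ = n * D := mul_comm _ _

lemma Dr_le_girth {n g : ℕ} (H : SimpleGraph (Vx N)) (φ : Fin n → Vx N)
    (hφ : Function.Injective φ) (hg : Girth H g) (hn : n ≤ g) : #(Dr H φ) ≤ 2 * n := by
  classical
  have := darts_le_of_girth (H.comap φ) (hg.comap φ hφ) hn
  convert this using 2
  ext p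
  simp [Dr]

lemma edges_le {n : ℕ} {H : SimpleGraph (Vx N)} (hK : H ≤ Kg N) (G : SimpleGraph (Fin n))
    (φ : Copy G (Tg H)) : G.edgeSet.ncard ≤ 48 * n + #(Dr H φ) := by
  classical
  set Hb : Finset (Fin n) := univ.filter fun u => big (φ u).1 = false ∧ (φ u).2.val = 0 with hHb
  have h1 : #Hb ≤ 24 := by
    have : #Hb ≤ #(univ : Finset (Fin 24)) := by
      refine card_le_card_of_injOn (fun u => (φ u).1) (fun _ _ => by simp) ?_
      intro u hu v hv huv
      simp only [hHb, coe_filter, mem_univ, true_and, Set.mem_ofPred_eq] at hu hv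
      exact φ.injective (Prod.ext huv (Fin.ext (hu.2.trans hv.2.symm)))
    simpa using this
  have h2 := G.two_mul_card_edgeFinset
  have h3 : (univ.filter fun (x, y) => G.Adj x y) ⊆
      (Hb ×ˢ univ ∪ univ ×ˢ Hb) ∪ Dr H φ := by
    rintro ⟨x, y⟩ hxy
    have hadj : (Tg H).Adj (φ x) (φ y) := φ.toHom.map_adj (mem_filter.1 hxy).2
    simp only [mem_union, mem_product, mem_univ, and_true, true_and, hHb, mem_filter, mem_Dr]
    by_cases hx : big (φ x).1 = false
    · exact Or.inl (Or.inl ⟨hx, Tg_hub hK hadj hx⟩)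
    by_cases hy : big (φ y).1 = false
    · exact Or.inl (Or.inr ⟨hy, Tg_hub hK hadj.symm hy⟩)
    exact Or.inr (Tg_big hadj (by simpa using hx) (by simpa using hy))
  have h4 := (card_le_card h3).trans ((card_union_le _ _).trans
    (Nat.add_le_add_right (card_union_le _ _) _))
  simp only [card_product, card_univ, Fintype.card_fin] at h4
  have h5 : G.edgeSet.ncard = #G.edgeFinset := by
    rw [← coe_edgeFinset, Set.ncard_coe_finset]
  have h6 : #Hb * n ≤ 24 * n := Nat.mul_le_mul_right _ h1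
  have h7 : n * #Hb ≤ 24 * n := by rw [mul_comm]; exact h6
  have h8 : 2 * #G.edgeFinset ≤ #Hb * n + n * #Hb + #(Dr H φ) := h2.trans_le h4
  omega

/-- First position of the run ending at `i`. -/
noncomputable def st (β : ℕ → Bool) (i : ℕ) : ℕ :=
  open Classical in
  Nat.find (p := fun a => ∀ j, a ≤ j → j ≤ i → β j = true) ⟨i + 1, fun j h1 h2 => by omega⟩

lemma st_spec (β : ℕ → Bool) (i j : ℕ) (h1 : st β i ≤ j) (h2 : j ≤ i) : β j = true := by
  classical
  exact Nat.find_spec (p := fun a => ∀ j, a ≤ j → j ≤ i → β j = true) _ j h1 h2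

lemma st_le (β : ℕ → Bool) (i a : ℕ) (h : ∀ j, a ≤ j → j ≤ i → β j = true) : st β i ≤ a := by
  classical
  exact Nat.find_min' (p := fun a => ∀ j, a ≤ j → j ≤ i → β j = true) _ h

/-- The code of a path. -/
noncomputable def code {α : Type*} (β : ℕ → Bool) (x₀ : α × α) (F : ℕ → α) (i : ℕ) : α × α :=
  if chg β i = true then
    if β (i + 1) = false then (F i, if i ≤ st β i + 1 then F (st β i) else F i)
    else (F (st β i), F (st β i))
  else x₀

lemma code_inj {α : Type*} {H : SimpleGraph (Vx N)} {g : ℕ} (hg : Girth H g) (h46 : 46 ≤ g)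
    (φ : α → Vx N) (hφ : Function.Injective φ) (β : ℕ → Bool) (hβ : ∀ i, 24 ≤ i → β i = false)
    (x₀ : α × α) (F F' : ℕ → α)
    (hF : ∀ i, β i = true → β (i + 1) = true → H.Adj (φ (F i)) (φ (F (i + 1))))
    (hF' : ∀ i, β i = true → β (i + 1) = true → H.Adj (φ (F' i)) (φ (F' (i + 1))))
    (iF : ∀ i < 24, ∀ j < 24, F i = F j → i = j) (iF' : ∀ i < 24, ∀ j < 24, F' i = F' j → i = j)
    (hc : ∀ i < 24, code β x₀ F i = code β x₀ F' i) (i : ℕ) (hi : β i = true) : F i = F' i := by
  classical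
  have hlt : ∀ j, β j = true → j < 24 := fun j hj => by
    by_contra h
    rw [hβ j (by omega)] at hj; simp at hj
  have hex : ∃ b, i ≤ b ∧ β (b + 1) = false := ⟨i + 24, by omega, hβ _ (by omega)⟩
  set b := Nat.find hex with hb
  obtain ⟨hib, hb1⟩ := Nat.find_spec hex
  rw [← hb] at hib hb1
  have hrun : ∀ j, i ≤ j → j ≤ b → β j = true := by
    intro j h1 h2
    rcases eq_or_lt_of_le h1 with rfl | h1
    · exact hi
    · have := Nat.find_min hex (m := j - 1) (by omega)
      rw [show j - 1 + 1 = j by omega] at this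
      by_contra h
      exact this ⟨by omega, by simpa using h⟩
  have hbb : β b = true := hrun b hib le_rfl
  have hai : st β b ≤ i := st_le β b i hrun
  set a := st β b with ha
  have hrun' : ∀ j, a ≤ j → j ≤ b → β j = true := st_spec β b
  have hcb := hc b (hlt b hbb)
  have hchg : chg β b = true := by simp [chg, inc, hbb, hb1]
  simp only [code, hchg, hb1, if_true, Prod.mk.injEq, ← ha] at hcb
  by_cases hlen : b ≤ a + 1
  · simp only [hlen, if_true] at hcb
    rcases (show i = a ∨ i = b by omega) with h | h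
    · rw [h]; exact hcb.2
    · rw [h]; exact hcb.1
  · obtain ⟨d, hd⟩ : ∃ d, b = d + 2 := ⟨b - 2, by omega⟩
    have hd0 : β d = true := hrun' d (by omega) (by omega)
    have hd1 : β (d + 1) = true := hrun' _ (by omega) (by omega)
    have hd2 : β (d + 2) = true := hd ▸ hbb
    have hd3 : β (d + 3) = false := by rw [← hb1, hd]
    have hst : st β d = a := by
      apply le_antisymm
      · exact st_le β d a fun j h1 h2 => hrun' j h1 (by omega)
      · refine st_le β b _ fun j h1 h2 => ?_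
        by_cases hj : j ≤ d
        · exact st_spec β d j h1 hj
        · exact hrun' j (by omega) h2
    have hcd := hc d (hlt d hd0)
    have hchg' : chg β d = true := by simp [chg, inc, hd0, hd1, hd2, hd3]
    simp only [code, hchg', hd1, if_true, hst] at hcd
    have hFa : F a = F' a := by simpa using hcd
    have hb24 := hlt b hbb
    have key := path_unique H g hg (fun j => φ (F (a + j))) (fun j => φ (F' (a + j))) (b - a)
      (by omega)
      (fun j hj => hF (a + j) (hrun' _ (by omega) (by omega)) (hrun' _ (by omega) (by omega)))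
      (fun j hj => hF' (a + j) (hrun' _ (by omega) (by omega)) (hrun' _ (by omega) (by omega)))
      (fun j hj k hk h => by have := iF _ (by omega) _ (by omega) (hφ h); omega)
      (fun j hj k hk h => by have := iF' _ (by omega) _ (by omega) (hφ h); omega)
      (by simp [hFa]) (by simp only [show a + (b - a) = b by omega]; rw [hcb.1])
      (i - a) (by omega)
    simp only [show a + (i - a) = i by omega] at key
    exact hφ key

/-- Extension of a function on `Fin 24` to the naturals. -/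
def ext24 {α : Type*} (f : Fin 24 → α) (i : ℕ) : α := if h : i < 24 then f ⟨i, h⟩ else f 0

lemma ext24_lt {α : Type*} (f : Fin 24 → α) {i : ℕ} (h : i < 24) : ext24 f i = f ⟨i, h⟩ :=
  dif_pos h

theorem copies_le {n g : ℕ} {H : SimpleGraph (Vx N)} (hK : H ≤ Kg N) (hg : Girth H g)
    (h46 : 46 ≤ g) (G : SimpleGraph (Fin n)) (φ : Copy G (Tg H)) :
    G.copyCount (pathGraph 24) ≤ 24 ^ 24 * (n + #(Dr H φ)) ^ 8 := by
  classical
  refine copyCount_le_labelledCopyCount.trans ?_
  have hl : G.labelledCopyCount (pathGraph 24) = #(univ : Finset (Copy (pathGraph 24) G)) := by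
    rw [labelledCopyCount, card_univ]
    convert rfl
  rw [hl]
  have h := card_le_mul_card_image (f := fun (f : Copy (pathGraph 24) G) (i : Fin 24) => (φ (f i)).1)
    univ ((n + #(Dr H φ)) ^ 8) ?_
  · refine le_trans h ?_
    rw [mul_comm]
    refine Nat.mul_le_mul_right _ ((card_le_univ _).trans (le_of_eq ?_))
    simp
  intro τ hτ
  obtain ⟨f₀, -, hf₀⟩ := mem_image.1 hτ
  set β : ℕ → Bool := fun i => decide (i < 24) && big (ext24 τ i).val with hβ
  have hβ1 : ∀ i (h : i < 24), β i = big (τ ⟨i, h⟩).val := fun i h => by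
    simp [hβ, h, ext24_lt τ h]
  have hβ2 : ∀ i, 24 ≤ i → β i = false := fun i h => by
    have : ¬ i < 24 := by omega
    simp [hβ, this]
  have hlt : ∀ j, β j = true → j < 24 := fun j hj => by
    by_contra h
    rw [hβ2 j (by omega)] at hj; simp at hj
  have hadj : ∀ (f : Copy (pathGraph 24) G) (i : ℕ) (h : i + 1 < 24),
      (Tg H).Adj (φ (f ⟨i, by omega⟩)) (φ (f ⟨i + 1, h⟩)) := fun f i h =>
    φ.toHom.map_adj (f.toHom.map_adj (pathGraph_adj.2 (Or.inl rfl)))
  have hhub : ∀ (f : Copy (pathGraph 24) G) (i : Fin 24), big (φ (f i)).1 = false →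
      (φ (f i)).2.val = 0 := by
    intro f i hi
    by_cases h : i.val + 1 < 24
    · exact Tg_hub hK (hadj f i h) hi
    · have := (hadj f 22 (by norm_num)).symm
      have e : i = ⟨22 + 1, by norm_num⟩ := Fin.ext (by have := i.2; simp; omega)
      subst e
      exact Tg_hub hK this hi
  have hH : ∀ f : Copy (pathGraph 24) G, (fun i => (φ (f i)).1) = τ → ∀ i, β i = true →
      β (i + 1) = true → H.Adj (φ (ext24 f i)) (φ (ext24 f (i + 1))) := by
    intro f hf i h1 h2
    have l1 := hlt _ h1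
    have l2 := hlt _ h2
    rw [ext24_lt _ l1, ext24_lt _ l2]
    rw [hβ1 _ l1, ← hf] at h1
    rw [hβ1 _ l2, ← hf] at h2
    exact Tg_big (hadj f i l2) h1 h2
  have hinj : ∀ f : Copy (pathGraph 24) G, ∀ i < 24, ∀ j < 24, ext24 f i = ext24 f j → i = j := by
    intro f i hi j hj h
    rw [ext24_lt _ hi, ext24_lt _ hj] at h
    simpa using f.injective h
  have hch : #((range 24).filter fun i => chg β i = true) ≤ 8 := by
    refine charged_le (fun i => (ext24 τ i).val) β ?_ hβ2 (fun i _ => (ext24 τ i).2) ?_ ?_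
    · intro i hi
      rw [hβ1 i (by omega), ext24_lt τ (show i < 24 by omega)]
    · intro i hi
      rw [ext24_lt τ (show i < 24 by omega), ext24_lt τ (show i + 1 < 24 by omega), ← hf₀]
      exact Tg_label hK (hadj f₀ i (by omega))
    · intro i hi j hj h1 h2
      rw [ext24_lt τ (show i < 24 by omega)] at h1 h2
      rw [ext24_lt τ (show j < 24 by omega)] at h1
      rw [← hf₀] at h1 h2
      have e1 := hhub f₀ _ h2
      have e2 := hhub f₀ ⟨j, by omega⟩ (by rw [← h1]; exact h2)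
      have := f₀.injective (φ.injective (Prod.ext (Fin.ext h1) (Fin.ext (e1.trans e2.symm))))
      simpa using this
  set x₀ : Fin n × Fin n := (f₀ 0, f₀ 0) with hx₀
  set C : Finset (Fin n × Fin n) := univ.diag ∪ Dr H φ with hC
  have hCcard : #C ≤ n + #(Dr H φ) := (card_union_le _ _).trans (by simp)
  have hn1 : 1 ≤ n + #(Dr H φ) := by have := (f₀ 0).2; omega
  have hmaps : #{f ∈ (univ : Finset (Copy (pathGraph 24) G)) | (fun i => (φ (f i)).1) = τ} ≤
      #(Fintype.piFinset fun i : Fin 24 => if chg β i = true then C else {x₀}) := by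
    refine card_le_card_of_injOn (fun f (i : Fin 24) => code β x₀ (ext24 f) i) ?_ ?_
    · intro f hf
      have hf' : (fun i => (φ (f i)).1) = τ := by simpa using hf
      simp only [mem_coe, Fintype.mem_piFinset]
      intro i
      by_cases hc : chg β i = true
      · simp only [code, hc, if_true, hC, mem_union, mem_diag, mem_univ, true_and]
        have hi : β i = true := by
          simp only [chg, inc, Bool.and_eq_true] at hc
          exact hc.1
        split_ifs with h1 h2
        · have h3 : st β i ≤ i := st_le β i i fun j a b => by rw [show j = i by omega]; exact hi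
          rcases eq_or_lt_of_le h3 with h4 | h4
          · left; rw [h4]
          · right
            rw [mem_Dr]
            have h5 : st β i + 1 = i := by omega
            have := hH f hf' (st β i) (st_spec β i _ le_rfl h3) (by rw [h5]; exact hi)
            rw [h5] at this
            exact this.symm
        · left; rfl
        · left; rfl
      · simp [code, hc]
    · intro f hf f' hf' h
      have hf1 : (fun i => (φ (f i)).1) = τ := by simpa using hf
      have hf2 : (fun i => (φ (f' i)).1) = τ := by simpa using hf'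
      ext1 i
      by_cases hb : β i = true
      · have := code_inj hg h46 φ φ.injective β hβ2 x₀ (ext24 f) (ext24 f') (hH f hf1) (hH f' hf2)
          (hinj f) (hinj f') (fun j hj => congrFun h ⟨j, hj⟩) i hb
        rwa [ext24_lt _ i.2, ext24_lt _ i.2] at this
      · rw [hβ1 i i.2] at hb
        have e1 : (φ (f i)).1 = τ i := congrFun hf1 i
        have e2 : (φ (f' i)).1 = τ i := congrFun hf2 i
        have a1 := hhub f i (by rw [e1]; simpa using hb)
        have a2 := hhub f' i (by rw [e2]; simpa using hb)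
        exact φ.injective (Prod.ext (e1.trans e2.symm) (Fin.ext (a1.trans a2.symm)))
  refine hmaps.trans ?_
  rw [Fintype.card_piFinset]
  calc ∏ i : Fin 24, #(if chg β i = true then C else {x₀})
      = ∏ i ∈ range 24, #(if chg β i = true then C else {x₀}) :=
        Fin.prod_univ_eq_prod_range (fun i => #(if chg β i = true then C else {x₀})) 24
    _ ≤ ∏ i ∈ range 24, (if chg β i = true then n + #(Dr H φ) else 1) := by
        refine prod_le_prod' fun i _ => ?_
        split_ifs
        · exact hCcard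
        · simp
    _ = (n + #(Dr H φ)) ^ #((range 24).filter fun i => chg β i = true) := by
        rw [prod_ite, prod_const, prod_const_one, mul_one]
    _ ≤ _ := Nat.pow_le_pow_right hn1 hch

end Pool.Agent.Work.MP_a5055e_co
end

-- merged part: Pool.Agent.Work.MP_a5055e_co.Lower
section
/-! Many canonical paths in the template graph. -/

namespace Pool.Agent.Work.MP_a5055e_co

open SimpleGraph Finset

variable {N : ℕ}

open Classical in
/-- Edges of the dense part between two classes. -/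
noncomputable def Ed (H : SimpleGraph (Vx N)) (l l' : Fin 24) : Finset (Fin N × Fin N) :=
  univ.filter fun p => H.Adj (l, p.1) (l', p.2)

lemma mem_Ed {H : SimpleGraph (Vx N)} {l l' : Fin 24} {p : Fin N × Fin N} :
    p ∈ Ed H l l' ↔ H.Adj (l, p.1) (l', p.2) := by simp [Ed]

lemma Ed_ge_of (H : SimpleGraph (Vx N)) (l l' : Fin 24) (D : ℕ) (S : Finset (Fin N))
    (hnb : ∀ a v, H.Adj (l, a) v → v.1 = l')
    (hS : ∀ a ∈ S, (H.neighborSet (l, a)).ncard = D) : #S * D ≤ #(Ed H l l') := by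
  classical
  have h1 : #((Ed H l l').filter fun p => p.1 ∈ S) =
      ∑ a ∈ S, #{p ∈ (Ed H l l').filter fun p => p.1 ∈ S | p.1 = a} :=
    card_eq_sum_card_fiberwise (f := Prod.fst) fun p hp => (mem_filter.1 hp).2
  refine le_trans ?_ (card_filter_le _ fun p => p.1 ∈ S)
  rw [h1, ← smul_eq_mul]
  refine card_nsmul_le_sum _ _ _ fun a ha => ?_
  rw [← hS a ha, ← Set.ncard_coe_finset]
  refine Set.ncard_le_ncard_of_injOn (fun v => (a, v.2)) ?_ ?_
  · intro v hv
    have := hnb a v hv
    simp only [coe_filter, mem_filter, mem_Ed, Set.mem_ofPred_eq, and_true]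
    refine ⟨?_, ha⟩
    rw [← this]; exact hv
  · intro v hv w hw h
    exact Prod.ext ((hnb a v hv).trans (hnb a w hw).symm) (Prod.mk.inj h).2

lemma Ed_swap (H : SimpleGraph (Vx N)) (l l' : Fin 24) : #(Ed H l l') = #(Ed H l' l) := by
  refine card_bij' (fun p _ => p.swap) (fun p _ => p.swap) ?_ ?_ (by simp) (by simp)
  · intro p hp; rw [mem_Ed] at hp ⊢; exact hp.symm
  · intro p hp; rw [mem_Ed] at hp ⊢; exact hp.symm

lemma Ed_ge {H : SimpleGraph (Vx N)} (hK : H ≤ Kg N) {D g : ℕ}
    (hD : ∀ v, (H.neighborSet v).ncard ≤ D)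
    (hmax : ∀ x y, (Kg N).Adj x y → (H.neighborSet x).ncard = D ∨ (H.neighborSet y).ncard = D ∨
        ∃ w : H.Walk x y, w.length ≤ g)
    (hN : 2 * (D + 1) ^ g ≤ N) (l l' : Fin 24) (h1 : l.val + 1 = l'.val) (h2 : big l = true)
    (h3 : big l' = true) (h4 : big (l.val - 1) = false) (h5 : big (l'.val + 1) = false) :
    N * D ≤ 2 * #(Ed H l l') := by
  classical
  have nb1 : ∀ a v, H.Adj (l, a) v → v.1 = l' := by
    intro a v h
    obtain ⟨h6, -, h7⟩ := hK h
    rcases h6 with h6 | h6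
    · exact Fin.ext (by simp only at h6; omega)
    · simp only at h6
      rw [show l.val - 1 = v.1.val by omega, h7] at h4; simp at h4
  have nb2 : ∀ a v, H.Adj (l', a) v → v.1 = l := by
    intro a v h
    obtain ⟨h6, -, h7⟩ := hK h
    rcases h6 with h6 | h6
    · simp only at h6
      rw [h6, h7] at h5; simp at h5
    · exact Fin.ext (by simp only at h6; omega)
  by_cases hall : ∀ a : Fin N, (H.neighborSet (l, a)).ncard = D
  · have := Ed_ge_of H l l' D univ nb1 fun a _ => hall a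
    simp only [card_univ, Fintype.card_fin] at this
    omega
  push Not at hall
  obtain ⟨a, ha⟩ := hall
  set B : Finset (Fin N) := univ.filter fun b => ∃ w : H.Walk (l, a) (l', b), w.length ≤ g with hB
  have hBc : #B ≤ (D + 1) ^ g := by
    refine le_trans ?_ (ball_le H D hD (l, a) g)
    rw [← Set.ncard_coe_finset]
    refine Set.ncard_le_ncard_of_injOn (fun b => (l', b)) ?_ ?_
    · intro b hb
      simpa [hB] using hb
    · intro b _ b' _ h
      exact (Prod.mk.inj h).2
  have := Ed_ge_of H l' l D Bᶜ nb2 fun b hb => by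
    rcases hmax (l, a) (l', b) ⟨Or.inl h1, h2, h3⟩ with h | h | h
    · exact absurd h ha
    · exact h
    · exact absurd (by simpa [hB] using h) (mem_compl.1 hb)
  rw [card_compl, Fintype.card_fin, ← Ed_swap] at this
  have h6 : N ≤ 2 * (N - #B) := by omega
  calc N * D ≤ 2 * (N - #B) * D := Nat.mul_le_mul_right _ h6
    _ ≤ _ := by rw [mul_assoc]; exact Nat.mul_le_mul_left _ this

abbrev Par (N : ℕ) := (Fin N × Fin N × Fin N × Fin N) ×
  ((Fin N × Fin N) × (Fin N × Fin N) × (Fin N × Fin N) × (Fin N × Fin N))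

/-- Coordinates of the canonical path. -/
def cf (z : Fin N) (t : Par N) : Fin 24 → Fin N :=
  ![t.1.1, z, t.1.2.1, z, t.2.1.1, t.2.1.2, z, t.2.2.1.1, t.2.2.1.2, z, z, z, z, z, z,
    t.2.2.2.1.1, t.2.2.2.1.2, z, t.2.2.2.2.1, t.2.2.2.2.2, z, t.1.2.2.1, z, t.1.2.2.2]

lemma cf_inj (z : Fin N) : Function.Injective (cf z) := by
  rintro ⟨⟨a, b, c, d⟩, ⟨e, f⟩, ⟨g, h⟩, ⟨i, j⟩, ⟨k, l⟩⟩
    ⟨⟨a', b', c', d'⟩, ⟨e', f'⟩, ⟨g', h'⟩, ⟨i', j'⟩, ⟨k', l'⟩⟩ H
  have h0 : a = a' := congrFun H 0
  have h2 : b = b' := congrFun H 2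
  have h21 : c = c' := congrFun H 21
  have h23 : d = d' := congrFun H 23
  have h4 : e = e' := congrFun H 4
  have h5 : f = f' := congrFun H 5
  have h7 : g = g' := congrFun H 7
  have h8 : h = h' := congrFun H 8
  have h15 : i = i' := congrFun H 15
  have h16 : j = j' := congrFun H 16
  have h18 : k = k' := congrFun H 18
  have h19 : l = l' := congrFun H 19
  subst_vars
  rfl

lemma cf_adj (H : SimpleGraph (Vx N)) (z : Fin N) (hz : z.val = 0) (t : Par N)
    (h1 : t.2.1 ∈ Ed H 4 5) (h2 : t.2.2.1 ∈ Ed H 7 8) (h3 : t.2.2.2.1 ∈ Ed H 15 16)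
    (h4 : t.2.2.2.2 ∈ Ed H 18 19) (i : ℕ) (hi : i + 1 < 24) :
    (Tg H).Adj (⟨i, by omega⟩, cf z t ⟨i, by omega⟩) (⟨i + 1, hi⟩, cf z t ⟨i + 1, hi⟩) := by
  rw [mem_Ed] at h1 h2 h3 h4
  have hi' : i < 23 := by omega
  interval_cases i
  all_goals first
    | exact Or.inl h1
    | exact Or.inl h2
    | exact Or.inl h3
    | exact Or.inl h4
    | (refine Or.inr ⟨Or.inl rfl, Or.inr hz, Or.inr hz, Or.inl ?_⟩; dsimp only; decide)
    | (refine Or.inr ⟨Or.inl rfl, Or.inl ?_, Or.inr hz, Or.inr ?_⟩ <;> dsimp only <;> decide)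
    | (refine Or.inr ⟨Or.inl rfl, Or.inr hz, Or.inl ?_, Or.inl ?_⟩ <;> dsimp only <;> decide)

theorem copies_ge {n : ℕ} (H : SimpleGraph (Vx N)) (hN : 0 < N) (ψ : Fin n ≃ Vx N) :
    N ^ 4 * (#(Ed H 4 5) * #(Ed H 7 8) * #(Ed H 15 16) * #(Ed H 18 19)) ≤
      ((Tg H).comap ψ).copyCount (pathGraph 24) := by
  classical
  set z : Fin N := ⟨0, hN⟩
  set S : Finset (Par N) := univ ×ˢ (Ed H 4 5 ×ˢ Ed H 7 8 ×ˢ Ed H 15 16 ×ˢ Ed H 18 19) with hS
  have hcard : #S = N ^ 4 * (#(Ed H 4 5) * #(Ed H 7 8) * #(Ed H 15 16) * #(Ed H 18 19)) := by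
    simp only [hS, card_product, card_univ, Fintype.card_prod, Fintype.card_fin]
    ring
  have hcopy : ∀ t ∈ S, ∃ f : Copy (pathGraph 24) ((Tg H).comap ψ),
      ∀ i, f i = ψ.symm (i, cf z t i) := by
    intro t ht
    simp only [hS, mem_product, mem_univ, true_and] at ht
    obtain ⟨h1, h2, h3, h4⟩ := ht
    refine ⟨⟨⟨fun i => ψ.symm (i, cf z t i), ?_⟩, ?_⟩, fun _ => rfl⟩
    · intro i j hij
      simp only [comap_adj, Equiv.apply_symm_apply]
      rcases pathGraph_adj.1 hij with h | h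
      · obtain ⟨i, hi⟩ := i
        obtain ⟨j, hj⟩ := j
        simp only at h
        subst h
        exact cf_adj H z rfl t h1 h2 h3 h4 i hj
      · obtain ⟨i, hi⟩ := i
        obtain ⟨j, hj⟩ := j
        simp only at h
        subst h
        exact (cf_adj H z rfl t h1 h2 h3 h4 j hi).symm
    · intro i j h
      exact (Prod.mk.inj (ψ.symm.injective h)).1
  choose F hF using hcopy
  rw [← hcard, copyCount_eq_card_image_copyToSubgraph, ← card_attach]
  refine card_le_card_of_injOn (fun t => (F t.1 t.2).toSubgraph) ?_ ?_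
  · intro t _
    simp only [coe_image, coe_univ, Set.image_univ, Set.mem_range]
    exact ⟨_, rfl⟩
  · intro t _ t' _ h
    apply Subtype.ext
    apply cf_inj z
    funext i
    have h1 : F t.1 t.2 i ∈ (F t.1 t.2).toSubgraph.verts := by
      simp [Copy.toSubgraph]
    have h2 : (F t.1 t.2).toSubgraph = (F t'.1 t'.2).toSubgraph := h
    rw [h2] at h1
    simp only [Copy.toSubgraph, Subgraph.map_verts, Subgraph.verts_top, Set.image_univ,
      Set.mem_range] at h1
    obtain ⟨j, hj⟩ := h1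
    have hj' : F t'.1 t'.2 j = F t.1 t.2 i := hj
    rw [hF, hF] at hj'
    have := Prod.mk.inj (ψ.symm.injective hj')
    rw [← this.2, this.1]

end Pool.Agent.Work.MP_a5055e_co
end

-- merged part: Pool.Agent.Work.MP_a5055e_co.Main
section
/-! The family and its extremal functions. -/

namespace Pool.Agent.Work.MP_a5055e_co

open SimpleGraph Finset Filter Asymptotics

/-- Girth parameter. -/
def gs : ℕ → ℕ
  | 0 => 47
  | i + 1 => 48 * (i + 2) ^ gs i + (i + 2) ^ 9 + gs i

/-- Class size. -/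
def Ns (i : ℕ) : ℕ := 2 * (i + 1 + 1) ^ gs i

lemma gs_mono : Monotone gs := monotone_nat_of_le_succ fun i => by simp [gs]

lemma gs_ge (i : ℕ) : 46 ≤ gs i := le_trans (by simp [gs]) (gs_mono (Nat.zero_le i))

lemma gs_pow (i : ℕ) : (i + 1) ^ 9 ≤ gs i := by
  cases i with
  | zero => simp [gs]
  | succ i => simp only [gs]; rw [show i + 1 + 1 = i + 2 from rfl]; omega

lemma gs_Ns {i j : ℕ} (h : i < j) : 24 * Ns i ≤ gs j := by
  refine le_trans ?_ (gs_mono (show i + 1 ≤ j from h))
  simp only [gs, Ns]; rw [show i + 1 + 1 = i + 2 from rfl]; omega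

lemma Ns_ge (i : ℕ) : i + 1 ≤ Ns i := by
  have : (i + 1 + 1) ^ 1 ≤ (i + 1 + 1) ^ gs i :=
    Nat.pow_le_pow_right (by omega) (by have := gs_ge i; omega)
  rw [pow_one] at this
  simp only [Ns]; omega

noncomputable def Hs (i : ℕ) : SimpleGraph (Vx (Ns i)) :=
  (exists_greedy (Kg (Ns i)) (i + 1) (gs i) (by have := gs_ge i; omega)).choose

lemma Hs_spec (i : ℕ) : Hs i ≤ Kg (Ns i) ∧ (∀ v, ((Hs i).neighborSet v).ncard ≤ i + 1) ∧
    Girth (Hs i) (gs i) ∧ ∀ x y, (Kg (Ns i)).Adj x y → ((Hs i).neighborSet x).ncard = i + 1 ∨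
      ((Hs i).neighborSet y).ncard = i + 1 ∨ ∃ w : (Hs i).Walk x y, w.length ≤ gs i :=
  (exists_greedy (Kg (Ns i)) (i + 1) (gs i) (by have := gs_ge i; omega)).choose_spec

/-- All finite graphs that are not contained in one of the template graphs. -/
def Fam : Set (Σ m : ℕ, SimpleGraph (Fin m)) := {X | ¬ ∃ i, X.2 ⊑ Tg (Hs i)}

lemma famFree_iff {n : ℕ} (G : SimpleGraph (Fin n)) : FamFree Fam G ↔ ∃ i, G ⊑ Tg (Hs i) := by
  constructor
  · intro h
    by_contra hc
    exact h ⟨n, G⟩ hc (IsContained.refl G)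
  · rintro ⟨i, hi⟩ X hX hXG
    exact hX ⟨i, hXG.trans hi⟩

lemma bounds {n : ℕ} (hn : 1 ≤ n) (G : SimpleGraph (Fin n)) (hG : FamFree Fam G) :
    ∃ δ : ℕ, δ ^ 9 ≤ n ∧ (∀ i, n ≤ 24 * Ns i → δ ≤ i + 1) ∧ G.edgeSet.ncard ≤ 50 * n * δ ∧
      G.copyCount (pathGraph 24) ≤ 24 ^ 24 * (3 * n * δ) ^ 8 := by
  obtain ⟨j, ⟨φ⟩⟩ := (famFree_iff G).1 hG
  obtain ⟨hK, hD, hg, -⟩ := Hs_spec j
  obtain ⟨δ, h1, h2, h3, h4⟩ : ∃ δ : ℕ, 1 ≤ δ ∧ δ ^ 9 ≤ n ∧ (∀ i, n ≤ 24 * Ns i → δ ≤ i + 1) ∧
      #(Dr (Hs j) φ) ≤ 2 * (n * δ) := by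
    by_cases h : n ≤ gs j
    · exact ⟨1, le_rfl, by simpa using hn, fun i _ => by omega,
        by simpa using Dr_le_girth (Hs j) φ φ.injective hg h⟩
    · refine ⟨j + 1, by omega, (gs_pow j).trans (by omega), fun i hi => ?_, ?_⟩
      · by_contra hc
        have := gs_Ns (show i < j by omega)
        omega
      · have := Dr_le_deg (Hs j) φ φ.injective hD
        omega
  have hnd : n ≤ n * δ := Nat.le_mul_of_pos_right _ h1
  refine ⟨δ, h2, h3, ?_, ?_⟩
  · have := edges_le hK G φ
    rw [mul_assoc]; omega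
  · refine (copies_le hK hg (gs_ge j) G φ).trans (Nat.mul_le_mul_left _ ?_)
    refine Nat.pow_le_pow_left ?_ _
    rw [mul_assoc]; omega

lemma ex_le (i : ℕ) : ex Fam (24 * Ns i) ≤ 50 * (24 * Ns i) * (i + 1) := by
  refine csSup_le' ?_
  rintro e ⟨G, hG, rfl⟩
  obtain ⟨δ, -, h2, h3, -⟩ := bounds (by have := Ns_ge i; omega) G hG
  exact h3.trans (Nat.mul_le_mul_left _ (h2 i le_rfl))

lemma exP_ge (i : ℕ) : Ns i ^ 8 * (i + 1) ^ 4 ≤ 16 * exP 24 Fam (24 * Ns i) := by
  classical
  obtain ⟨hK, hD, hg, hmax⟩ := Hs_spec i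
  let ψ : Fin (24 * Ns i) ≃ Vx (Ns i) := finProdFinEquiv.symm
  have h1 := copies_ge (Hs i) (by have := Ns_ge i; omega) ψ
  have h2 : ((Tg (Hs i)).comap ψ).copyCount (pathGraph 24) ≤ exP 24 Fam (24 * Ns i) := by
    refine le_csSup ?_ ⟨_, (famFree_iff _).2 ⟨i, ⟨⟨Hom.comap ψ _, ψ.injective⟩⟩⟩, rfl⟩
    refine Set.Finite.bddAbove ((Set.finite_range fun G : SimpleGraph (Fin (24 * Ns i)) =>
      G.copyCount (pathGraph 24)).subset ?_)
    rintro c ⟨G, -, rfl⟩
    exact ⟨G, rfl⟩
  have e1 := Ed_ge hK hD hmax le_rfl 4 5 rfl (by decide) (by decide) (by decide) (by decide)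
  have e2 := Ed_ge hK hD hmax le_rfl 7 8 rfl (by decide) (by decide) (by decide) (by decide)
  have e3 := Ed_ge hK hD hmax le_rfl 15 16 rfl (by decide) (by decide) (by decide) (by decide)
  have e4 := Ed_ge hK hD hmax le_rfl 18 19 rfl (by decide) (by decide) (by decide) (by decide)
  have e := Nat.mul_le_mul (Nat.mul_le_mul (Nat.mul_le_mul e1 e2) e3) e4
  calc Ns i ^ 8 * (i + 1) ^ 4
      = Ns i ^ 4 * (Ns i * (i + 1) * (Ns i * (i + 1)) * (Ns i * (i + 1)) * (Ns i * (i + 1))) := by
        ring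
    _ ≤ Ns i ^ 4 * (2 * #(Ed (Hs i) 4 5) * (2 * #(Ed (Hs i) 7 8)) * (2 * #(Ed (Hs i) 15 16)) *
        (2 * #(Ed (Hs i) 18 19))) := Nat.mul_le_mul_left _ e
    _ = 16 * (Ns i ^ 4 * (#(Ed (Hs i) 4 5) * #(Ed (Hs i) 7 8) * #(Ed (Hs i) 15 16) *
        #(Ed (Hs i) 18 19))) := by ring
    _ ≤ _ := Nat.mul_le_mul_left _ (h1.trans h2)

theorem not_bigO : ¬ (fun n : ℕ => (exP 24 Fam n : ℝ)) =O[atTop]
    fun n : ℕ => (ex Fam n : ℝ) ^ 2 * (n : ℝ) ^ 6 := by
  intro h
  obtain ⟨C, hC⟩ := h.bound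
  obtain ⟨n₀, hn₀⟩ := eventually_atTop.1 hC
  obtain ⟨i, hi1, hi2⟩ : ∃ i : ℕ, n₀ ≤ i ∧ 16 * (|C| * (2500 * 24 ^ 8)) < i :=
    ((eventually_ge_atTop n₀).and
      (tendsto_natCast_atTop_atTop.eventually (eventually_gt_atTop _))).exists
  have h1 := hn₀ (24 * Ns i) (by have := Ns_ge i; omega)
  have h2 : (ex Fam (24 * Ns i) : ℝ) ≤ 50 * (24 * Ns i) * (i + 1) := by exact_mod_cast ex_le i
  have h3 : (Ns i : ℝ) ^ 8 * (i + 1) ^ 4 ≤ 16 * exP 24 Fam (24 * Ns i) := by
    exact_mod_cast exP_ge i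
  rw [Real.norm_of_nonneg (by positivity), Real.norm_of_nonneg (by positivity)] at h1
  have hN : (0 : ℝ) < Ns i := by have := Ns_ge i; exact_mod_cast (by omega)
  have h4 : (ex Fam (24 * Ns i) : ℝ) ^ 2 * ((24 * Ns i : ℕ) : ℝ) ^ 6 ≤
      (2500 * 24 ^ 8) * ((Ns i : ℝ) ^ 8 * (i + 1) ^ 2) := by
    calc _ ≤ (50 * (24 * Ns i) * (i + 1) : ℝ) ^ 2 * ((24 * Ns i : ℕ) : ℝ) ^ 6 := by gcongr
      _ = _ := by push_cast; ring
  have h5 : (exP 24 Fam (24 * Ns i) : ℝ) ≤
      |C| * ((2500 * 24 ^ 8) * ((Ns i : ℝ) ^ 8 * (i + 1) ^ 2)) :=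
    h1.trans ((mul_le_mul_of_nonneg_right (le_abs_self C) (by positivity)).trans
      (mul_le_mul_of_nonneg_left h4 (abs_nonneg C)))
  have hX : (0 : ℝ) < (Ns i : ℝ) ^ 8 * (i + 1) ^ 2 := by positivity
  have h6 : ((i : ℝ) + 1) ^ 2 * ((Ns i : ℝ) ^ 8 * (i + 1) ^ 2) ≤
      16 * (|C| * (2500 * 24 ^ 8)) * ((Ns i : ℝ) ^ 8 * (i + 1) ^ 2) := by
    calc _ = (Ns i : ℝ) ^ 8 * (i + 1) ^ 4 := by ring
      _ ≤ 16 * (|C| * ((2500 * 24 ^ 8) * ((Ns i : ℝ) ^ 8 * (i + 1) ^ 2))) := by linarith
      _ = _ := by ring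
  have h7 := le_of_mul_le_mul_right h6 hX
  have h8 : (0 : ℝ) ≤ i := Nat.cast_nonneg i
  nlinarith

theorem littleO : (fun n : ℕ => (exP 24 Fam n : ℝ)) =o[atTop] fun n : ℕ => (n : ℝ) ^ 9 := by
  rw [isLittleO_iff]
  intro ε hε
  obtain ⟨M, hM⟩ := exists_nat_ge ((24 ^ 24 * 3 ^ 8 : ℝ) / ε)
  have hM' : (24 ^ 24 * 3 ^ 8 : ℝ) ≤ ε * M := by
    rw [div_le_iff₀ hε] at hM; linarith
  filter_upwards [eventually_ge_atTop (M ^ 9), eventually_ge_atTop 1] with n hn hn1
  rw [Real.norm_of_nonneg (by positivity), Real.norm_of_nonneg (by positivity)]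
  have key : M * exP 24 Fam n ≤ 24 ^ 24 * 3 ^ 8 * n ^ 9 := by
    rcases Nat.eq_zero_or_pos M with rfl | hMpos
    · simp
    rw [mul_comm, ← Nat.le_div_iff_mul_le hMpos]
    refine csSup_le' ?_
    rintro c ⟨G, hG, rfl⟩
    obtain ⟨δ, h1, -, -, h4⟩ := bounds hn1 G hG
    rw [Nat.le_div_iff_mul_le hMpos]
    have h5 : δ ^ 8 * M ≤ n := by
      rcases le_total M δ with h | h
      · calc δ ^ 8 * M ≤ δ ^ 8 * δ := Nat.mul_le_mul_left _ h
          _ = δ ^ 9 := by ring
          _ ≤ n := h1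
      · calc δ ^ 8 * M ≤ M ^ 8 * M := Nat.mul_le_mul_right _ (Nat.pow_le_pow_left h _)
          _ = M ^ 9 := by ring
          _ ≤ n := hn
    calc _ ≤ 24 ^ 24 * (3 * n * δ) ^ 8 * M := Nat.mul_le_mul_right _ h4
      _ = 24 ^ 24 * 3 ^ 8 * n ^ 8 * (δ ^ 8 * M) := by ring
      _ ≤ 24 ^ 24 * 3 ^ 8 * n ^ 8 * n := Nat.mul_le_mul_left _ h5
      _ = _ := by ring
  have key' : (M : ℝ) * exP 24 Fam n ≤ 24 ^ 24 * 3 ^ 8 * (n : ℝ) ^ 9 := by exact_mod_cast key
  have hMpos : (0 : ℝ) < M := by
    by_contra hc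
    have : ε * M ≤ 0 := mul_nonpos_of_nonneg_of_nonpos hε.le (not_lt.1 hc)
    have : (0 : ℝ) < 24 ^ 24 * 3 ^ 8 := by positivity
    linarith
  refine le_of_mul_le_mul_left ?_ hMpos
  calc _ ≤ _ := key'
    _ ≤ ε * M * (n : ℝ) ^ 9 := by gcongr
    _ = _ := by ring

end Pool.Agent.Work.MP_a5055e_co
end
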